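import Mathlib
import Pool.Agent.U707.LI.Stm

/-!
Project LI (helper707), part HAAR: a closed subset of a profinite group whose images in the finite quotients
are not small almost contains a coset of an open subgroup.
-/

set_option autoImplicit false

open MeasureTheory Set Topology
open scoped Pointwise ENNReal

namespace Pool.Agent.U140.LI

section coset

variable {G : Type} [Group G] [TopologicalSpace G] [IsTopologicalGroup G]

/-- the projection to the cosets -/
abbrev pr (U : Subgroup G) : G → G ⧸ U := QuotientGroup.mk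

lemma preim_eq (U : Subgroup G) (g : G) :
    pr U ⁻¹' {pr U g} = (fun y => g⁻¹ * y) ⁻¹' (U : Set G) := by
  ext y
  simp only [mem_preimage, mem_singleton_iff, SetLike.mem_coe]
  rw [eq_comm]
  exact QuotientGroup.eq

lemma open_coset (U : Subgroup G) (hU : IsOpen (U : Set G)) (x : G ⧸ U) :
    IsOpen (pr U ⁻¹' {x}) := by
  obtain ⟨g, rfl⟩ := QuotientGroup.mk_surjective x
  rw [show (QuotientGroup.mk g : G ⧸ U) = pr U g from rfl, preim_eq]
  exact hU.preimage (continuous_const.mul continuous_id)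

variable [MeasurableSpace G] [BorelSpace G]

lemma meas_coset (μ : Measure G) [μ.IsMulLeftInvariant] (U : Subgroup G) (x : G ⧸ U) :
    μ (pr U ⁻¹' {x}) = μ U := by
  obtain ⟨g, rfl⟩ := QuotientGroup.mk_surjective x
  rw [show (QuotientGroup.mk g : G ⧸ U) = pr U g from rfl, preim_eq, measure_preimage_mul]

lemma meas_union (μ : Measure G) [μ.IsMulLeftInvariant] (U : Subgroup G)
    (hU : IsOpen (U : Set G)) (S : Finset (G ⧸ U)) :
    μ (pr U ⁻¹' (S : Set (G ⧸ U))) = S.card * μ U := by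
  have h1 : pr U ⁻¹' (S : Set (G ⧸ U)) = ⋃ x ∈ S, pr U ⁻¹' {x} := by
    ext y
    simp
  rw [h1, measure_biUnion_finset]
  · rw [Finset.sum_congr rfl fun x _ => meas_coset μ U x, Finset.sum_const, nsmul_eq_mul]
  · intro x _ y _ hxy
    exact Disjoint.preimage _ (by simpa using hxy)
  · intro x _
    exact (open_coset U hU x).measurableSet

lemma meas_diff (μ : Measure G) (U : Subgroup G)
    (hU : IsOpen (U : Set G)) (S : Finset (G ⧸ U)) {C : Set G} (hC : MeasurableSet C) :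
    ∑ x ∈ S, μ (pr U ⁻¹' {x} \ C) ≤ μ (pr U ⁻¹' (S : Set (G ⧸ U)) \ C) := by
  rw [← measure_biUnion_finset]
  · apply measure_mono
    intro y hy
    simp only [mem_iUnion, mem_diff, mem_preimage, mem_singleton_iff] at hy
    obtain ⟨x, hx, hxy, hyC⟩ := hy
    refine ⟨?_, hyC⟩
    show pr U y ∈ (S : Set (G ⧸ U))
    rw [hxy]
    exact hx
  · intro x _ y _ hxy
    exact (Disjoint.preimage _ (by simpa using hxy)).mono diff_subset diff_subset
  · intro x _
    exact (open_coset U hU x).measurableSet.diff hC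

end coset

lemma exists_sub {G : Type} [Group G] [TopologicalSpace G] [IsTopologicalGroup G] [CompactSpace G]
    [TotallyDisconnectedSpace G] {C O : Set G} (hC : IsClosed C) (hO : IsOpen O)
    (h : C ⊆ O) :
    ∃ U : Subgroup G, U.Normal ∧ IsOpen (U : Set G) ∧ pr U ⁻¹' (pr U '' C) ⊆ O := by
  obtain ⟨V, hV, hCV⟩ := compact_open_separated_mul_right hC.isCompact hO h
  obtain ⟨N, hN⟩ := ProfiniteGrp.exist_openNormalSubgroup_sub_open_nhds_of_one
    (isOpen_interior (s := V)) (mem_interior_iff_mem_nhds.2 hV)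
  refine ⟨N.toSubgroup, N.isNormal', N.isOpen', ?_⟩
  rintro y ⟨c, hc, hcy⟩
  have h1 : c⁻¹ * y ∈ N.toSubgroup := QuotientGroup.eq.1 hcy
  have h2 : c * (c⁻¹ * y) ∈ C * V := Set.mul_mem_mul hc (interior_subset (hN h1))
  rw [mul_inv_cancel_left] at h2
  exact hCV h2

theorem t_HAAR : Pool.Agent.U707.LI.S_HAAR := by
  classical
  intro G _ _ _ _ _ _ C hC δ hδ hd m
  letI : MeasurableSpace G := borel G
  haveI : BorelSpace G := ⟨rfl⟩
  set μ : Measure G := Measure.haarMeasure ⊤ with hμ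
  have hμ1 : μ univ = 1 := by
    have h := Measure.haarMeasure_self (G := G) (K₀ := ⊤)
    simpa using h
  have hfin : IsProbabilityMeasure μ := ⟨hμ1⟩
  have hCm : MeasurableSet C := hC.measurableSet
  -- the images of `C`
  have himg : ∀ U : Subgroup G, IsOpen (U : Set G) → ∃ S : Finset (G ⧸ U),
      (S : Set (G ⧸ U)) = pr U '' C ∧ (pr U '' C).ncard = S.card := by
    intro U hU
    have : Finite (G ⧸ U) := U.quotient_finite_of_isOpen hU
    refine ⟨(toFinite (pr U '' C)).toFinset, by simp, ?_⟩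
    exact ncard_eq_toFinset_card _ _
  have hsub : ∀ U : Subgroup G, C ⊆ pr U ⁻¹' (pr U '' C) := fun U => subset_preimage_image _ _
  -- the measure of `C` is positive
  have hpos : μ C ≠ 0 := by
    intro h0
    obtain ⟨O, hCO, hO, hlt⟩ := C.exists_isOpen_lt_of_lt (μ := μ) (ENNReal.ofReal δ) (by
      rw [h0]
      exact ENNReal.ofReal_pos.2 hδ)
    obtain ⟨U, hUn, hU, hUO⟩ := exists_sub hC hO hCO
    obtain ⟨S, hS, hScard⟩ := himg U hU
    have hfinQ : Finite (G ⧸ U) := U.quotient_finite_of_isOpen hU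
    have h1 := hd U hUn hU
    have h2 : ENNReal.ofReal δ * (Nat.card (G ⧸ U) : ℝ≥0∞) ≤ (S.card : ℝ≥0∞) := by
      rw [← ENNReal.ofReal_natCast, ← ENNReal.ofReal_natCast, ← ENNReal.ofReal_mul hδ.le]
      apply ENNReal.ofReal_le_ofReal
      rw [← hScard]
      exact h1
    have h3 : (Nat.card (G ⧸ U) : ℝ≥0∞) * μ U = 1 := by
      have : Fintype (G ⧸ U) := Fintype.ofFinite _
      have h4 := meas_union μ U hU Finset.univ
      rw [Finset.coe_univ, preimage_univ, hμ1, Finset.card_univ, ← Nat.card_eq_fintype_card] at h4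
      exact h4.symm
    have h5 : ENNReal.ofReal δ ≤ μ O := by
      calc ENNReal.ofReal δ = ENNReal.ofReal δ * ((Nat.card (G ⧸ U) : ℝ≥0∞) * μ U) := by
            rw [h3, mul_one]
        _ = ENNReal.ofReal δ * (Nat.card (G ⧸ U) : ℝ≥0∞) * μ U := by rw [mul_assoc]
        _ ≤ (S.card : ℝ≥0∞) * μ U := by gcongr
        _ = μ (pr U ⁻¹' (S : Set (G ⧸ U))) := (meas_union μ U hU S).symm
        _ ≤ μ O := measure_mono (by rw [hS]; exact hUO)
    exact absurd hlt (not_lt.2 h5)
  -- a coset which is almost contained in `C`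
  have hm0 : ((m : ℝ≥0∞) + 1) ≠ 0 := by simp
  have hm1 : ((m : ℝ≥0∞) + 1) ≠ ⊤ := by simp
  obtain ⟨O, hCO, hO, -, hlt⟩ := hCm.exists_isOpen_sdiff_lt (μ := μ) (measure_ne_top μ C)
    (ε := μ C / ((m : ℝ≥0∞) + 1)) (ENNReal.div_pos hpos hm1).ne'
  obtain ⟨U, hUn, hU, hUO⟩ := exists_sub hC hO hCO
  obtain ⟨S, hS, hScard⟩ := himg U hU
  obtain ⟨x, hx⟩ : ∃ x : G ⧸ U, (m : ℝ≥0∞) * μ (pr U ⁻¹' {x} \ C) < μ U := by
    by_contra hcon
    push Not at hcon
    have h1 : μ C ≤ (m : ℝ≥0∞) * μ (O \ C) := by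
      calc μ C ≤ μ (pr U ⁻¹' (S : Set (G ⧸ U))) := measure_mono (by rw [hS]; exact hsub U)
        _ = ∑ x ∈ S, μ U := by rw [meas_union μ U hU S, Finset.sum_const, nsmul_eq_mul]
        _ ≤ ∑ x ∈ S, (m : ℝ≥0∞) * μ (pr U ⁻¹' {x} \ C) := Finset.sum_le_sum fun x _ => hcon x
        _ = (m : ℝ≥0∞) * ∑ x ∈ S, μ (pr U ⁻¹' {x} \ C) := by rw [Finset.mul_sum]
        _ ≤ (m : ℝ≥0∞) * μ (pr U ⁻¹' (S : Set (G ⧸ U)) \ C) := by
            gcongr
            exact meas_diff μ U hU S hCm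
        _ ≤ (m : ℝ≥0∞) * μ (O \ C) := by
            gcongr
            rw [hS]
            exact hUO
    have h2 : μ (O \ C) * ((m : ℝ≥0∞) + 1) < μ C := ENNReal.mul_lt_of_lt_div hlt
    have h3 : (m : ℝ≥0∞) * μ (O \ C) ≤ μ (O \ C) * ((m : ℝ≥0∞) + 1) := by
      rw [mul_comm]
      gcongr
      exact le_self_add
    exact absurd (lt_of_le_of_lt (h1.trans h3) h2) (lt_irrefl _)
  obtain ⟨g, rfl⟩ := QuotientGroup.mk_surjective x
  refine ⟨g, U, hUn, hU, fun h hh => ?_⟩
  by_contra hcon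
  push Not at hcon
  have hcov : (U : Set G) ⊆ ⋃ j : Fin m, (fun u => g * h j * u) ⁻¹' (pr U ⁻¹' {pr U g} \ C) := by
    intro u hu
    obtain ⟨j, hj⟩ := hcon u hu
    refine mem_iUnion.2 ⟨j, ?_, hj⟩
    rw [preim_eq]
    show g⁻¹ * (g * h j * u) ∈ U
    rw [mul_assoc, inv_mul_cancel_left]
    exact U.mul_mem (hh j) hu
  have h1 : μ U ≤ (m : ℝ≥0∞) * μ (pr U ⁻¹' {pr U g} \ C) := by
    refine (measure_mono hcov).trans ((measure_iUnion_fintype_le μ _).trans ?_)
    rw [Finset.sum_congr rfl fun j _ => measure_preimage_mul μ (g * h j) _, Finset.sum_const,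
      Finset.card_univ, Fintype.card_fin, nsmul_eq_mul]
  exact absurd hx (not_lt.2 h1)

end Pool.Agent.U140.LI
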